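import Mathlib
import Pool.Agent.H53R6.Tree

/-!
# Border formula size of all multiples of the permanent
-/

set_option autoImplicit false

namespace Pool.Agent.Results.MP_9ce8c8_lc.BorderFormulasOfMultiples

open MvPolynomial Pool.Agent.H567.Nec Pool.Agent.H53R6

universe u

/-- **Border formula size of the equations of the hypersurface `per = 0`.**  Let `k` be a field of
characteristic zero and let `g ≠ 0` be a polynomial over `k` in the entries of an `m × m` matrix
which vanishes at all matrices over `k` with permanent zero (for example a nonzero multiple of the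
permanent, of any degree). If the polynomial of an arithmetic formula `F` over `k(ε)`
(`RatFunc k`) has coefficients defined at `ε = 0` and specializes to `g` at `ε = 0`, then `F` has at
least `(1/8 - o(1)) m ^ 4 / log₂ m` leaves labelled by variables. -/
theorem result {k : Type u} [Field k] [CharZero k] (m : ℕ)
    (g : MvPolynomial (Fin m × Fin m) k) (hg : g ≠ 0)
    (hv : ∀ X : Matrix (Fin m) (Fin m) k, X.permanent = 0 → eval (fun p => X p.1 p.2) g = 0)
    (F : Formula (RatFunc k) (Fin m × Fin m))
    (hF : ∀ d : Fin m × Fin m →₀ ℕ, (F.poly.coeff d).denom.eval 0 ≠ 0 ∧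
      RatFunc.eval (RingHom.id k) 0 (F.poly.coeff d) = g.coeff d) :
    m * (m - 2 * Nat.clog 2 m) * ((m - 2 * Nat.clog 2 m) ^ 2 - 2)
      ≤ 8 * Nat.clog 2 m * F.size := by
  classical
  have hvan : VanishesWithPer g := fun X hX => hv X hX
  apply count_formula
  intro ℓ n' hm hn hn0 r c hr hc T hT
  obtain ⟨P, h1, h2, h3⟩ := exists_jets_border m ℓ n' hm hn hn0 r c hr hc g hg hvan.van F.poly hF
    T hT
  obtain ⟨D, hD, hDmem⟩ := Formula.exists_submodule (P := P) (T := T) (fun v hv ξ => h1 ξ v hv)
    (fun v hv ξ ξ' => h2 ξ ξ' v hv) F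
  have hTD : D = ⊤ := h3 D hDmem
  rw [hTD, finrank_top] at hD
  simp only [Module.finrank_fintype_fun_eq_card, Fintype.card_fin] at hD
  omega

end Pool.Agent.Results.MP_9ce8c8_lc.BorderFormulasOfMultiples
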