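import Pool.Agent.H505R3.SLM.NTree

/-!
# Approximative complexity of the polynomials which vanish where the permanent vanishes

If a circuit over `k(ε)`, with free linear gates and product gates of any fan-in, computes a
polynomial which tends for `ε → 0` to a nonzero polynomial `h` over `k` which vanishes at all
`N × N` matrices of permanent zero (for instance a nonzero multiple of the permanent, of any
degree), then the product gates have total cost at least `N² ⌊log₂ N⌋ / 1000`, `N ≥ 2^24`.
-/

set_option autoImplicit false

open MvPolynomial Finset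

open Pool.Agent.H505R3.SLM Pool.Agent.H213R3.PC

namespace Pool.Agent.Results.MP_9ce8c8_lc.BorderMultiples

theorem result {k : Type*} [Field k] [CharZero k] (N : ℕ) (hN : 2 ^ 24 ≤ N)
    (h : MvPolynomial (Fin N × Fin N) k) (hh : h ≠ 0) (hv : VanishesWithPer h)
    (s : ℕ) (node : (i : ℕ) → Node (RatFunc k) (Fin N × Fin N) i)
    (g : ℕ → MvPolynomial (Fin N × Fin N) (RatFunc k)) (hg : ∀ i < s, g i = (node i).value g)
    (i : ℕ) (hi : i < s)
    (hlim : ∀ d, (coeff d (g i)).denom.eval 0 ≠ 0 ∧
      (coeff d (g i)).eval (RingHom.id k) 0 = coeff d h) :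
    N ^ 2 * Nat.log 2 N ≤ 1000 * ∑ j ∈ range s, (node j).cost :=
  bound_one N hN h hh hv _ (lim_of_border s node g hg i hi h hlim)

end Pool.Agent.Results.MP_9ce8c8_lc.BorderMultiples
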