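import Pool.Agent.H632R3.BNL.Main

set_option autoImplicit false

open MvPolynomial

namespace Pool.Agent.Results.MP_9ce8c8_lc.BorderQuadraticLog

universe u

/-- A division-free straight-line program `g 0, …, g (s - 1)` over the field `K` in which additions
and multiplications by constants are free: a line `i ∉ M` is any linear combination, with
coefficients in `K`, of `1`, the variables and the earlier lines; a line `i ∈ M` is the product of
two earlier lines.  The cost of the program is the number of elements of `M`. -/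
def IsProgram {K σ : Type*} [Field K] (s : ℕ) (M : Finset ℕ) (g : ℕ → MvPolynomial σ K) : Prop :=
  ∀ i < s, (i ∉ M ∧ g i ∈ Submodule.span K
      ({1} ∪ Set.range (X : σ → MvPolynomial σ K) ∪ g '' {j | j < i})) ∨
    (i ∈ M ∧ ∃ a < i, ∃ b < i, g i = g a * g b)

/-- `F` is computed with at most `r` non-scalar multiplications (additions, subtractions and
multiplications by elements of `K` are free). -/
def NonscalarLE {K σ : Type*} [Field K] (r : ℕ) (F : MvPolynomial σ K) : Prop :=
  ∃ (s : ℕ) (M : Finset ℕ) (g : ℕ → MvPolynomial σ K),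
    M.card ≤ r ∧ IsProgram s M g ∧ ∃ i < s, g i = F

/-- `L(F) ≤ r`: `F` is computed by a division-free straight-line program which starts from the
variables and arbitrary constants of `K` and performs at most `r` additions, subtractions and
multiplications (the lines in `ops`). -/
def LLE {K σ : Type*} [Field K] (r : ℕ) (F : MvPolynomial σ K) : Prop :=
  ∃ (s : ℕ) (ops : Finset ℕ) (g : ℕ → MvPolynomial σ K), ops.card ≤ r ∧
    (∀ i < s, (i ∉ ops ∧ ((∃ c : K, g i = C c) ∨ ∃ v, g i = X v)) ∨
      (i ∈ ops ∧ ∃ a < i, ∃ b < i, g i = g a + g b ∨ g i = g a - g b ∨ g i = g a * g b)) ∧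
    ∃ i < s, g i = F

/-- All coefficients of `F` are defined at `ε = 0` and `F_{ε=0} = f`. -/
def SpecializesTo {k σ : Type*} [Field k] (F : MvPolynomial σ (RatFunc k))
    (f : MvPolynomial σ k) : Prop :=
  ∀ d, (coeff d F).denom.eval 0 ≠ 0 ∧ (coeff d F).eval (RingHom.id k) 0 = coeff d f

/-- The generic `N × N` permanent. -/
noncomputable def per (k : Type*) [Field k] (N : ℕ) : MvPolynomial (Fin N × Fin N) k :=
  Matrix.permanent (Matrix.of fun i j : Fin N => (X (i, j) : MvPolynomial (Fin N × Fin N) k))

/-- **The approximative complexity of the permanent is at least `(1/96 - o(1)) N² log₂ N`.**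
For every `ε > 0` there is `N₀` such that for all fields `k` of characteristic zero, all `N ≥ N₀`
and all `r`: if some polynomial over `k(ε)` that is defined at `ε = 0` and specializes to the
`N × N` permanent is computed with at most `r` non-scalar multiplications (or: with at most `r`
additions, subtractions and multiplications), then `(1/96 - ε) N² log₂ N ≤ r`. -/
theorem result (ε : ℝ) (hε : 0 < ε) : ∃ N₀ : ℕ, ∀ (k : Type u) [Field k] [CharZero k],
    ∀ N ≥ N₀, ∀ (r : ℕ) (F : MvPolynomial (Fin N × Fin N) (RatFunc k)),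
      SpecializesTo F (per k N) → (NonscalarLE r F ∨ LLE r F) →
      (1 / 96 - ε) * (N : ℝ) ^ 2 * Real.logb 2 N ≤ r := by
  classical
  obtain ⟨N₀, h⟩ := Pool.Agent.H632R3.BNL.border_main.{u} ε hε
  refine ⟨N₀, fun k _ _ N hN r F hF hr => ?_⟩
  have key : NonscalarLE r F → (1 / 96 - ε) * (N : ℝ) ^ 2 * Real.logb 2 N ≤ r := by
    rintro ⟨s, M, g, hM, hg, i, hi, hgi⟩
    have h1 := h k N hN s M g F hg ⟨i, hi, hgi.symm⟩ hF
    have h2 : (M.card : ℝ) ≤ r := by exact_mod_cast hM
    exact h1.trans h2
  rcases hr with hr | ⟨s, ops, g, hops, hg, i, hi, hgi⟩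
  · exact key hr
  · apply key
    refine ⟨s, ops.filter (fun i => ∃ a < i, ∃ b < i, g i = g a * g b), g,
      (Finset.card_filter_le _ _).trans hops, ?_, i, hi, hgi⟩
    intro j hj
    by_cases hP : j ∈ ops.filter (fun i => ∃ a < i, ∃ b < i, g i = g a * g b)
    · exact Or.inr ⟨hP, (Finset.mem_filter.1 hP).2⟩
    · refine Or.inl ⟨hP, ?_⟩
      have hmem : ∀ a < j, g a ∈ Submodule.span (RatFunc k)
          ({1} ∪ Set.range (X : Fin N × Fin N → MvPolynomial (Fin N × Fin N) (RatFunc k)) ∪
            g '' {j' | j' < j}) :=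
        fun a ha => Submodule.subset_span (Or.inr ⟨a, ha, rfl⟩)
      rcases hg j hj with ⟨_, ⟨c, hc⟩ | ⟨v, hv⟩⟩ | ⟨hjo, a, ha, b, hb, hab | hab | hab⟩
      · rw [hc, show (C c : MvPolynomial (Fin N × Fin N) (RatFunc k)) = c • 1 by
          rw [smul_eq_C_mul, mul_one]]
        exact Submodule.smul_mem _ _ (Submodule.subset_span (Or.inl (Or.inl rfl)))
      · rw [hv]
        exact Submodule.subset_span (Or.inl (Or.inr ⟨v, rfl⟩))
      · rw [hab]
        exact Submodule.add_mem _ (hmem a ha) (hmem b hb)
      · rw [hab]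
        exact Submodule.sub_mem _ (hmem a ha) (hmem b hb)
      · exact absurd (Finset.mem_filter.2 ⟨hjo, a, ha, b, hb, hab⟩) hP

end Pool.Agent.Results.MP_9ce8c8_lc.BorderQuadraticLog
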