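import Pool.Agent.H53R8.Rand

/-!
# Computation trees which decide `y = per(X)`

A deterministic or randomized algebraic computation tree which decides, for a matrix `X` and a
number `y`, whether `y = per(X)`, performs at least `(1/288 - o(1)) N² log₂ N` arithmetic operations
on some branch.
-/

set_option autoImplicit false

namespace Pool.Agent.Results.MP_9ce8c8_lc.ComputationTrees

universe u

/-- Operations on `n` registers: load a constant, load an input, or apply one of `+ - * /` to two
registers. -/
inductive Op (K : Type u) (σ : Type) (n : ℕ) : Type u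
  | const (c : K) : Op K σ n
  | input (v : σ) : Op K σ n
  | add (i j : Fin n) : Op K σ n
  | sub (i j : Fin n) : Op K σ n
  | mul (i j : Fin n) : Op K σ n
  | div (i j : Fin n) : Op K σ n

/-- Loading a constant or an input is free, an arithmetic operation costs `1`. -/
def Op.cost {K : Type u} {σ : Type} {n : ℕ} : Op K σ n → ℕ
  | const _ => 0
  | input _ => 0
  | _ => 1

/-- The result of an operation on the input `x` and register contents `r` (`a / 0 = 0`). -/
def Op.value {K : Type u} [Field K] {σ : Type} {n : ℕ} (x : σ → K) (r : Fin n → K) :
    Op K σ n → K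
  | const c => c
  | input v => x v
  | add i j => r i + r j
  | sub i j => r i - r j
  | mul i j => r i * r j
  | div i j => r i / r j

/-- Algebraic computation trees with `n` registers in use. An operation node writes a new register,
a test node branches according to the outcome (an element of `T`) of a test of a register, and a
leaf carries the answer. -/
inductive Tree (K : Type u) (σ : Type) (T : Type) : ℕ → Type u
  | leaf {n : ℕ} (b : Bool) : Tree K σ T n
  | op {n : ℕ} (o : Op K σ n) (t : Tree K σ T (n + 1)) : Tree K σ T n
  | test {n : ℕ} (i : Fin n) (next : T → Tree K σ T n) : Tree K σ T n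

namespace Tree

variable {K : Type u} {σ : Type} {T : Type}

/-- The answer on the input `x` with register contents `r`, if the test of a register with
content `c` has the outcome `τ c`. -/
def run [Field K] (τ : K → T) (x : σ → K) : {n : ℕ} → Tree K σ T n → (Fin n → K) → Bool
  | _, leaf b, _ => b
  | _, op o t, r => t.run τ x (Fin.snoc (α := fun _ => K) r (o.value x r))
  | _, test i next, r => (next (τ (r i))).run τ x r

/-- The largest number of arithmetic operations on a path from the root to a leaf. -/
def cost [Fintype T] : {n : ℕ} → Tree K σ T n → ℕ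
  | _, leaf _ => 0
  | _, op o t => o.cost + t.cost
  | _, test _ next => Finset.univ.sup fun s => (next s).cost

end Tree

/-- The input `(A, y)`: one coordinate for each entry of the matrix, and one more. -/
def input {K : Type*} {N : ℕ} (A : Matrix (Fin N) (Fin N) K) (y : K) :
    Option (Fin N × Fin N) → K :=
  fun o => o.elim y fun p => A p.1 p.2

section Translate

open Pool.Agent.H53R7

variable {K : Type u} {σ : Type} {T : Type}

/-- translation of operations -/
def trO {n : ℕ} : Op K σ n → Pool.Agent.H53R7.Op K σ n
  | .const c => .const c
  | .input v => .input v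
  | .add i j => .add i j
  | .sub i j => .sub i j
  | .mul i j => .mul i j
  | .div i j => .div i j

/-- translation of trees -/
def trT : {n : ℕ} → Tree K σ T n → ACT K σ T n
  | _, .leaf b => .leaf b
  | _, .op o t => .op (trO o) (trT t)
  | _, .test i next => .test i fun s => trT (next s)

lemma trO_value [Field K] {n : ℕ} (x : σ → K) (r : Fin n → K) (o : Op K σ n) :
    (trO o).value x r = o.value x r := by
  cases o <;> rfl

lemma trO_cost {n : ℕ} (o : Op K σ n) : (trO o).cost = o.cost := by
  cases o <;> rfl

lemma trT_run [Field K] (τ : K → T) (x : σ → K) {n : ℕ} (t : Tree K σ T n) :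
    ∀ r : Fin n → K, (trT t).run τ x r = t.run τ x r := by
  induction t with
  | leaf b => intro r; rfl
  | op o t ih =>
    intro r
    show (trT t).run τ x (Fin.snoc (α := fun _ => K) r ((trO o).value x r)) = _
    rw [trO_value, ih]
    rfl
  | test i next ih =>
    intro r
    show (trT (next (τ (r i)))).run τ x r = _
    rw [ih]
    rfl

lemma trT_cost [Fintype T] {n : ℕ} (t : Tree K σ T n) : (trT t).cost = t.cost := by
  induction t with
  | leaf b => rfl
  | op o t ih =>
    show (trO o).cost + (trT t).cost = _
    rw [trO_cost, ih]
    rfl
  | test i next ih =>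
    show (Finset.univ.sup fun s => (trT (next s)).cost) = Finset.univ.sup fun s => (next s).cost
    congr 1
    funext s
    exact ih s

end Translate

/-- **Deciding `y = per(X)` by deterministic or randomized algebraic computation trees.**  For every
`ε > 0` there is `N₀` such that for all `N ≥ N₀` and every finite family `t ω` of computation trees
with probabilities `w ω` which, for every `N × N` matrix `A` and every `y`, answers the question
whether `y = per(A)` correctly with probability at least `1 - δ`: with probability at least
`1 - 2 δ` the tree `t ω` has cost at least `(1/288 - ε) N² log₂ N`.  This holds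

* for real computation trees with three-way sign tests, over the real numbers;
* for computation trees with zero tests, over any field `K` of characteristic zero.

The case of a single tree and `δ = 0` is that of deterministic trees. -/
theorem result (ε : ℝ) (hε : 0 < ε) : ∃ N₀ : ℕ,
    (∀ N ≥ N₀, ∀ (Ω : Type) [Fintype Ω] (w : Ω → ℝ) (δ : ℝ), (∀ ω, 0 ≤ w ω) → ∑ ω, w ω = 1 →
      ∀ t : Ω → Tree ℝ (Option (Fin N × Fin N)) SignType 0,
      (∀ A : Matrix (Fin N) (Fin N) ℝ, 1 - δ ≤ ∑ ω,
        if (t ω).run (fun c => SignType.sign c) (input A A.permanent) Fin.elim0 = true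
          then w ω else 0) →
      (∀ (A : Matrix (Fin N) (Fin N) ℝ) (y : ℝ), y ≠ A.permanent → 1 - δ ≤ ∑ ω,
        if (t ω).run (fun c => SignType.sign c) (input A y) Fin.elim0 = false
          then w ω else 0) →
      1 - 2 * δ ≤ ∑ ω, if (1 / 288 - ε) * (N : ℝ) ^ 2 * Real.logb 2 N ≤ (t ω).cost
        then w ω else 0) ∧
    (∀ (K : Type u) [Field K] [DecidableEq K] [CharZero K], ∀ N ≥ N₀,
      ∀ (Ω : Type) [Fintype Ω] (w : Ω → ℝ) (δ : ℝ), (∀ ω, 0 ≤ w ω) → ∑ ω, w ω = 1 →
      ∀ t : Ω → Tree K (Option (Fin N × Fin N)) Bool 0,
      (∀ A : Matrix (Fin N) (Fin N) K, 1 - δ ≤ ∑ ω,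
        if (t ω).run (fun c => decide (c = 0)) (input A A.permanent) Fin.elim0 = true
          then w ω else 0) →
      (∀ (A : Matrix (Fin N) (Fin N) K) (y : K), y ≠ A.permanent → 1 - δ ≤ ∑ ω,
        if (t ω).run (fun c => decide (c = 0)) (input A y) Fin.elim0 = false
          then w ω else 0) →
      1 - 2 * δ ≤ ∑ ω, if (1 / 288 - ε) * (N : ℝ) ^ 2 * Real.logb 2 N ≤ (t ω).cost
        then w ω else 0) := by
  obtain ⟨N₂, h₂⟩ := Pool.Agent.H53R7.graph_lower.{0} (3 * ε) (by positivity)
  obtain ⟨N₃, h₃⟩ := Pool.Agent.H53R7.graph_lower.{u} (3 * ε) (by positivity)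
  refine ⟨max N₂ N₃, fun N hN Ω _ w δ hw0 hw1 t hy hn => ?_,
    fun K _ _ _ N hN Ω _ w δ hw0 hw1 t hy hn => ?_⟩
  · have h := Pool.Agent.H53R8.rand_lower Pool.Agent.H53R7.testLocus_sign N _
      (fun s M g hg F hF hF0 hFg => h₂ ℝ N ((le_max_left _ _).trans hN) s M g hg F hF hF0 hFg)
      w hw0 hw1 δ (fun ω => trT (t ω))
      (fun X => by
        have := hy X
        simp only [trT_run]
        exact this)
      (fun X y hy' => by
        have := hn X y hy'
        simp only [trT_run]
        exact this)
      ((1 / 288 - ε) * (N : ℝ) ^ 2 * Real.logb 2 N) (by linarith)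
    simpa only [trT_cost] using h
  · have hdec : (fun x : K => @decide (x = 0) (Classical.propDecidable _))
        = fun c : K => decide (c = 0) := by
      funext x
      congr
    have hloc := Pool.Agent.H53R7.testLocus_zero K
    rw [hdec] at hloc
    have h := Pool.Agent.H53R8.rand_lower hloc N _
      (fun s M g hg F hF hF0 hFg => h₃ K N ((le_max_right _ _).trans hN) s M g hg F hF hF0 hFg)
      w hw0 hw1 δ (fun ω => trT (t ω))
      (fun X => by
        have := hy X
        simp only [trT_run]
        exact this)
      (fun X y hy' => by
        have := hn X y hy'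
        simp only [trT_run]
        exact this)
      ((1 / 288 - ε) * (N : ℝ) ^ 2 * Real.logb 2 N) (by linarith)
    simpa only [trT_cost] using h

end Pool.Agent.Results.MP_9ce8c8_lc.ComputationTrees
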